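import Pool.Agent.Lib.FQ.Blue2
import Pool.Agent.Lib.FQ.B_CUB1

/-! Row CUB3: the map on the cube is locally injective. -/

set_option autoImplicit false

open scoped Topology ENNReal NNReal RealInnerProductSpace Classical
open Metric Filter MeasureTheory Set

noncomputable section

namespace Pool.Agent.Lib.FQ

namespace CUB310

open CUB113

variable {m : ℕ}

theorem abs_le_tail (i' : Fin (m + 1)) (b' : Bool) (z : E m) {i : Fin (m + 1)} (h : i' ≠ i) :
    |z i| ≤ ‖(Lp (i', b') z).1‖ := by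
  have h0 : Equiv.swap 0 i' i ≠ 0 := fun h1 => by
    have h2 := congrArg (Equiv.swap 0 i') h1
    rw [Equiv.swap_apply_self, Equiv.swap_apply_left] at h2
    exact h h2.symm
  obtain ⟨j, hj⟩ := Fin.exists_succ_eq.2 h0
  have h1 : |sw i' b' z j.succ| ≤ ‖(Lp (i', b') z).1‖ := norm_le_pi_norm (Lp (i', b') z).1 j
  rwa [abs_sw, hj, Equiv.swap_apply_self] at h1

theorem uniq {z : E m} {p p' : Fin (m + 1) × Bool}
    (h : (Ps p z).2 + ‖(Ps p z).1 - ctr 0 0‖ < 1 / 2)
    (h' : (Ps p' z).2 + ‖(Ps p' z).1 - ctr 0 0‖ < 1 / 2) : p' = p := by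
  obtain ⟨i, b⟩ := p
  obtain ⟨i', b'⟩ := p'
  rw [Ps_snd, Ps_fst] at h h'
  have n1 := norm_nonneg (Lp (i, b) z).1
  have n2 := norm_nonneg (Lp (i', b') z).1
  by_cases hi : i' = i
  · subst hi
    cases b <;> cases b' <;> simp [sg] at h h' ⊢ <;> linarith
  · have a1 := abs_le_tail i' b' z hi
    have a2 := abs_le_tail i b z (Ne.symm hi)
    have a3 := neg_abs_le (sg b' * z i')
    have a4 := neg_abs_le (sg b * z i)
    rw [abs_mul, abs_sg, one_mul] at a3 a4
    exfalso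
    simp only at h h'
    linarith

end CUB310

open CUB113 CUB310 in
theorem r_CUB3' : R_CUB3 := by
  intro m _ e g _ h z hz
  have hp : ∃ p : Fin (m + 1) × Bool, ∀ p', p' ≠ p → ∀ᶠ y in 𝓝 (Ps p' z), g y = 0 := by
    by_cases hex : ∃ p : Fin (m + 1) × Bool, (Ps p z).2 + ‖(Ps p z).1 - ctr 0 0‖ < 1 / 2
    · obtain ⟨p, hp⟩ := hex
      exact ⟨p, fun p' hp' =>
        (h.sec _ (box p' hz).2.1).resolve_right fun h1 => hp' (uniq hp h1)⟩
    · exact ⟨(0, true), fun p' _ => (h.sec _ (box p' hz).2.1).resolve_right fun h1 => hex ⟨p', h1⟩⟩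
  obtain ⟨p, hp⟩ := hp
  have b1 : ‖(Ps p z).1 - ctr 0 0‖ < 1 / 2 := by
    rw [Ps_fst]
    exact ((norm_fst_le _).trans (norm_Lp p z).le).trans_lt hz
  have b3 : (Ps p z).2 < 1 := by
    have := (abs_le.1 (abs_snd p z)).2
    linarith
  obtain ⟨U, hU, hinj⟩ := h.inj _ b1 (box p hz).2.1 b3
  have e1 : ∀ᶠ w in 𝓝 z, Ps p w ∈ U := (cont_Ps p).continuousAt.eventually hU
  have e2 : ∀ᶠ w in 𝓝 z, ∀ p', p' ≠ p → g (Ps p' w) = 0 := by
    refine eventually_all.2 fun p' => ?_
    by_cases hp' : p' = p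
    · exact Eventually.of_forall fun w hw => absurd hp' hw
    · exact ((cont_Ps p').continuousAt.eventually (hp p' hp')).mono fun w hw _ => hw
  have key : ∀ w, (∀ p', p' ≠ p → g (Ps p' w) = 0) →
      cubeMap e g w = swE p.1 p.2 ((start m e).L (Ps p w) + g (Ps p w)) := by
    intro w w2
    rw [map_eq, Finset.sum_eq_single p]
    · rw [map_add, start_Ps, map_smul]
      simp only [swE_apply, sw_sw]
    · intro p' _ hp'
      rw [w2 p' hp', map_zero]
    · exact fun hh => absurd (Finset.mem_univ p) hh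
  refine ⟨_, e1.and e2, fun a ha b hb hab => ?_⟩
  rw [key a ha.2, key b hb.2] at hab
  have h1 : Ps p a = Ps p b := hinj ha.1 hb.1 ((swE p.1 p.2).injective hab)
  exact (Lp p).injective (add_right_cancel h1)

end Pool.Agent.Lib.FQ
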