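import Pool.Agent.Lib.FQ.Blue2
import Pool.Agent.Lib.FQ.B_STDM

/-! The tents of a cycle before the last one. -/

set_option autoImplicit false

open scoped Topology ENNReal NNReal RealInnerProductSpace Classical
open Metric Filter MeasureTheory Set

noncomputable section

namespace Pool.Agent.Lib.FQ

namespace STD10

open STDM35 in
theorem core (hGEN : St_TGEN) (hPOT : St_TPOT) (hR1 : St_R1) (hNEXT : St_NEXT) (hEXT : St_EXT)
    (hUP : St_UP) (m : ℕ) (κ : Cst) (hκ : κ.OK m) (S : St m) (hS : Valid κ S) (h3 : 3 ≤ S.tag)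
    (htag : S.tag < m + 3) : ∃ T : Step m, (St_TG2 → Geom2 S T) ∧ Geom κ.K S T ∧
      Dyn (Valid κ) (psi κ) κ.cs κ.δ S T := by
  have hm := hκ.hm
  have ha := hS.a_pos
  obtain ⟨i, hi⟩ : ∃ i, S.tag = 3 + i := ⟨S.tag - 3, by omega⟩
  have him : i ≤ m := by omega
  obtain ⟨hiso, B, v, β, hdec⟩ := hS.iso3 h3
  have e3 : S.tag - 3 = i := by omega
  rw [e3] at hiso hdec
  obtain ⟨u, w, hw, hAu, horth, hcv⟩ :=
    hNEXT m i him S.a (κ.Λ i) S.A B v β ha hdec fun z => (hiso z).1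
  have h8 : (1 : ℝ) ≤ 8 ^ i := Cst.OK.p8 i
  have h80 : (0 : ℝ) ≤ 8 ^ i := by linarith
  have hΛ := hκ.Λ_pos i
  have hu : ‖u‖ ≤ κ.Λ i := by
    have h1 := (hiso u).1
    rw [hAu, norm_smul, hw, Real.norm_eq_abs, abs_of_pos ha, mul_one, mul_comm (κ.Λ i)] at h1
    exact le_of_mul_le_mul_left h1 ha
  have hR := fun f : Fa m => hR1 m S.A u (cv (fc i f) (8 ^ i)) S.a (κ.Λ i) (2 + 8 ^ i) hS.det
    (hcv f) ha.le hΛ.le (by linarith) (abs_cv_le i f h80) fun z => (hiso z).1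
  rw [hAu] at hR
  have hE := fun f : Fa m => hEXT m i S.a S.A B v β w f hdec hw horth
  have hI : ∀ f : Fa m,
      Iso (κ.Λ (i + 1)) κ.K0 S.a (S.A + (cv (fc i f) (8 ^ i)).smulRight (S.a • w)) := by
    intro f z
    have h2 := hUP m (i + 1) (by omega) S.a _ _ _ _ ha.le (hE f) z
    refine ⟨((hR f).2 z).trans ?_, by rw [hκ.hK0]; exact h2⟩
    refine mul_le_mul_of_nonneg_right ?_ (norm_nonneg _)
    rw [hκ.Λs]
    refine mul_le_mul_of_nonneg_left ?_ hΛ.le
    have := mul_le_mul_of_nonneg_right hu (by linarith : (0 : ℝ) ≤ 2 + 8 ^ i)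
    linarith
  have hρ : 0 ≤ S.lam ^ (-κ.θ) := Real.rpow_nonneg hS.lam_pos.le _
  have hk1 := hS.kap_ge hκ
  have hk2 := kap_le_two hκ (S := S) (by omega)
  have hg0 := hκ.g_pos
  have hg1 := hκ.g_le'
  obtain ⟨W, hWm, hWi, hWp⟩ := hPOT m κ.M κ.C1 κ.θ hκ.whit hκ.C1_nonneg hκ.θ_pos hκ.θ_half i him
    S.k S.j 0 (fun _ => by simp) (kap κ S) (kap κ S - κ.g) (S.lam ^ (-κ.θ)) (by linarith)
    (by linarith) hk2 hρ
  have hG : Geom κ.K S (tstep S i (8 ^ i) κ.M (S.a • w) S.a (S.tag + 1) W) :=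
    hGEN m hm κ.K S i (8 ^ i) κ.M κ.C1 (S.a • w) S.a (S.tag + 1) W him h8
      ((hκ.pow_le_T him).trans hκ.T_le_M) hκ.whit (hS.good hκ) fun f =>
        ⟨(hR f).1, S.a, ha, (hI f).mono ha.le (hκ.hK'' (i + 1) (by omega)) hκ.K0_le_K⟩
  have hch : ∀ k' j', Adm i κ.M S.k S.j k' j' → cell k' j' ⊆ S.D →
      (tch S i (8 ^ i) κ.M (S.a • w) S.a (S.tag + 1) k' j').a = S.a ∧
      (tch S i (8 ^ i) κ.M (S.a • w) S.a (S.tag + 1) k' j').k = k' ∧
      kap κ (tch S i (8 ^ i) κ.M (S.a • w) S.a (S.tag + 1) k' j') ≤ kap κ S ∧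
      (¬ Outside i S.k S.j k' j' →
        kap κ (tch S i (8 ^ i) κ.M (S.a • w) S.a (S.tag + 1) k' j') ≤ kap κ S - κ.g) ∧
      Valid κ (tch S i (8 ^ i) κ.M (S.a • w) S.a (S.tag + 1) k' j') := by
    intro k' j' hadm hsub
    have hk := sd_le_eighth hadm.1
    have hk0 := sd_pos k'
    have h2 := hG.chk k' j'
    have hk' : (tch S i (8 ^ i) κ.M (S.a • w) S.a (S.tag + 1) k' j').k = k' := h2.1
    have hj' : (tch S i (8 ^ i) κ.M (S.a • w) S.a (S.tag + 1) k' j').j = j' := h2.2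
    have hy : (tch S i (8 ^ i) κ.M (S.a • w) S.a (S.tag + 1) k' j').y =
        S.L (ctr k' j', 0) + -(tent i (8 ^ i) S.k S.j (ctr k' j', 0)) • (S.a • w) := by
      have h1 := hG.aff k' j' hadm (ctr k' j', 0) (ctr_mem k' j') le_rfl hk0.le
      rw [St.y, hk', hj']
      exact h1
    have hd : ‖(tch S i (8 ^ i) κ.M (S.a • w) S.a (S.tag + 1) k' j').y - S.y‖ ≤
        (κ.Ku + 1) * S.lam := by
      rw [hy]
      exact move hκ hS hw h80 (z := (ctr k' j', 0)) (hsub (ctr_mem k' j')) le_rfl (sd_pos _).le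
    have ha' : (tch S i (8 ^ i) κ.M (S.a • w) S.a (S.tag + 1) k' j').a = S.a := by
      by_cases hin : ∃ f, Inside i κ.M S.k S.j k' j' f
      · obtain ⟨f, -, he⟩ :=
          tch_inside (s := (8 : ℝ) ^ i) (V := S.a • w) (a' := S.a) (tg := S.tag + 1) hin
        rw [he]
      · rw [tch_outside hin]
    have hsize : (tch S i (8 ^ i) κ.M (S.a • w) S.a (S.tag + 1) k' j').lam ≤
        κ.c * dd (tch S i (8 ^ i) κ.M (S.a • w) S.a (S.tag + 1) k' j').y := by
      have h1 := hS.disp hκ hd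
      have h2 := hS.size
      have h3 := hκ.c_pos
      have h4 := hS.dd_pos hκ
      have h5 : S.a * sd k' ≤ S.lam / 8 := by unfold St.lam; nlinarith
      have h6 := mul_le_mul_of_nonneg_left h1 h3.le
      have h7 := mul_pos h3 h4
      rw [St.lam, ha', hk']
      linarith
    have hkpos : 0 < (tch S i (8 ^ i) κ.M (S.a • w) S.a (S.tag + 1) k' j').k := by
      rw [hk']; have := hadm.1; omega
    have hkS : kap κ S = 1 + κ.γ - ((i : ℝ) + 1) * κ.g := kap_std hi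
    refine ⟨ha', hk', ?_⟩
    by_cases hin : ∃ f, Inside i κ.M S.k S.j k' j' f
    · obtain ⟨f, -, he⟩ :=
        tch_inside (s := (8 : ℝ) ^ i) (V := S.a • w) (a' := S.a) (tg := S.tag + 1) hin
      have hA : (tch S i (8 ^ i) κ.M (S.a • w) S.a (S.tag + 1) k' j').A =
          S.A + (cv (fc i f) (8 ^ i)).smulRight (S.a • w) := by rw [he]
      have ht : (tch S i (8 ^ i) κ.M (S.a • w) S.a (S.tag + 1) k' j').tag = 3 + (i + 1) := by
        rw [he]
        show S.tag + 1 = 3 + (i + 1)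
        omega
      have hkc : kap κ (tch S i (8 ^ i) κ.M (S.a • w) S.a (S.tag + 1) k' j') = kap κ S - κ.g := by
        rw [kap_std ht, hkS]; push_cast; ring
      refine ⟨by linarith, fun _ => hkc.le, by rw [ha']; exact ha, hsize,
        by rw [hA]; exact (hR f).1, fun _ => hkpos, by rw [ht]; omega, fun h => ?_, fun h => ?_,
        fun _ => ?_⟩
      · rw [ht] at h; omega
      · rw [ht] at h; omega
      · rw [ht, hA, ha', Nat.add_sub_cancel_left]
        exact ⟨hI f, _, _, _, hE f⟩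
    · have he := tch_outside (s := (8 : ℝ) ^ i) (V := S.a • w) (a' := S.a) (tg := S.tag + 1) hin
      have hA : (tch S i (8 ^ i) κ.M (S.a • w) S.a (S.tag + 1) k' j').A = S.A := by rw [he]
      have ht : (tch S i (8 ^ i) κ.M (S.a • w) S.a (S.tag + 1) k' j').tag = 3 + i := by
        rw [he]
        exact hi
      have hkc : kap κ (tch S i (8 ^ i) κ.M (S.a • w) S.a (S.tag + 1) k' j') = kap κ S := by
        rw [kap_std ht, hkS]
      refine ⟨hkc.le, fun h => absurd (hadm.2.resolve_left hin) h, by rw [ha']; exact ha, hsize,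
        by rw [hA]; exact hS.det, fun _ => hkpos, by rw [ht]; omega, fun h => ?_, fun h => ?_,
        fun _ => ?_⟩
      · rw [ht] at h; omega
      · rw [ht] at h; omega
      · rw [ht, hA, ha', Nat.add_sub_cancel_left]
        exact ⟨hiso, _, _, _, hdec⟩
  refine ⟨_, fun h2 => ?_, hG, ?_, ?_, hWm, ?_, ?_, ?_, ?_⟩
  · rw [← hAu]
    exact h2 m hm S i (8 ^ i) κ.M u S.a (S.tag + 1) W h8 (hS.good hκ).injective hcv
  · intro z hz h0 h1
    have h2 := hS.disp hκ (move hκ hS hw (l := i) h80 hz h0 h1)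
    exact norm_le_one_of_dd ((half_pos (hS.dd_pos hκ)).le.trans h2)
  · intro k' j' hadm hsub
    exact (hch k' j' hadm hsub).2.2.2.2
  · refine hWi.trans (mul_le_mul_left (ENNReal.ofReal_le_ofReal ?_) _)
    have h3 : kap κ S - (kap κ S - (kap κ S - κ.g)) * (1 / 8) ^ m + 4 * κ.θ * κ.C1 ≤
        (1 - κ.δ) * kap κ S := by
      have h5 := mul_le_mul_of_nonneg_left hk2 hκ.δ_pos.le
      have h6 := hκ.θC
      have h7 := hκ.hδ
      have h9 := mul_pos hg0 hκ.q_pos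
      rw [← hκ.hq]
      nlinarith
    have h4 := mul_le_mul_of_nonneg_left h3 hρ
    rw [psi]
    linarith
  · intro x hx k' hadm hfirst
    right
    obtain ⟨ha', hk', c1, c2, hv⟩ :=
      hch k' (idx k' x) hadm (cell_subset (by have := hadm.1; omega) hx)
    have h1 := hWp x hx k' hadm hfirst
      (kap κ (tch S i (8 ^ i) κ.M (S.a • w) S.a (S.tag + 1) k' (idx k' x)))
      (by linarith [hv.kap_ge hκ]) c1 fun hx' => c2 (not_outside_centre (mem_cell_idx k' x) hx')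
    have h2 := psi_child (κ := κ) (S := S)
      (S' := tch S i (8 ^ i) κ.M (S.a • w) S.a (S.tag + 1) k' (idx k' x)) one_pos ha
      (by rw [ha', one_mul])
    rw [Real.one_rpow, one_mul, hk'] at h2
    rw [← h2] at h1
    exact h1
  · intro k' j' h
    exact h.elim
  · intro h
    have := hS.k_pos (by omega)
    omega

end STD10

theorem r_STD' : R_STD := by
  intro a b c d e f m κ hκ S hS h3 h4
  obtain ⟨T, -, h⟩ := STD10.core a b c d e f m κ hκ S hS h3 h4
  exact ⟨T, h⟩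

theorem r_STD2' (hGEN : St_TGEN) (hPOT : St_TPOT) (hR1 : St_R1) (hNEXT : St_NEXT) (hEXT : St_EXT)
    (hUP : St_UP) (hTG2 : St_TG2) (m : ℕ) (κ : Cst) (hκ : κ.OK m) (S : St m) (hS : Valid κ S)
    (h3 : 3 ≤ S.tag) (htag : S.tag < m + 3) : Has2 κ S := by
  obtain ⟨T, h1, h⟩ := STD10.core hGEN hPOT hR1 hNEXT hEXT hUP m κ hκ S hS h3 htag
  exact ⟨T, h1 hTG2, h⟩

end Pool.Agent.Lib.FQ
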